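import Mathlib

/-!
Identities for the curve `y^11 = x (8 - x)^2` over `F_199`: an explicit ideal class of order two.
-/

set_option autoImplicit false

namespace Pool.Agent.X135.JC

def PP {R : Type*} [CommRing R] (y : R) : R := -56 + 44 * y + 91 * y ^ 2 + 6 * y ^ 3
def SS {R : Type*} [CommRing R] (y : R) : R := -59 - 6 * y - 30 * y ^ 2 + 98 * y ^ 3 - y ^ 4 + y ^ 5
def ff {R : Type*} [CommRing R] (y z : R) : R := PP y + (y + 5) * z
def gg {R : Type*} [CommRing R] (y z x : R) : R :=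
  PP y ^ 2 - 8 * y * (y + 5) ^ 2 - PP y * (y + 5) * z + (y + 5) ^ 2 * y * x
/-- the norm form of the basis `1, z, x` -/
def NN {R : Type*} [CommRing R] (y A B C : R) : R :=
  A ^ 3 + 16 * A ^ 2 * C + 64 * A * C ^ 2 - 8 * y * A * B ^ 2 + 3 * y ^ 6 * A * B * C + y ^ 11 * C ^ 3
    - y ^ 7 * B ^ 3 + 8 * y ^ 6 * B * C ^ 2

theorem fg {R : Type*} [CommRing R] (y z x : R) (hz2 : z ^ 2 = y * x) (hzx : z * x = 8 * z - y ^ 6)
    (h : (199 : R) = 0) : ff y z * gg y z x = - SS y ^ 2 := by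
  unfold ff gg SS PP
  linear_combination (-(-56 + 44 * y + 91 * y ^ 2 + 6 * y ^ 3) * (y + 5) ^ 2) * hz2
    + ((y + 5) ^ 3 * y) * hzx + ((-865) + (2140)*y + (2664)*y^2 + (-6212)*y^3 + (-4826)*y^4 + (4710)*y^5 + (4529)*y^6 + (771)*y^7 + (50)*y^8 + (1)*y^9) * h

theorem nf {R : Type*} [CommRing R] (y : R) (h : (199 : R) = 0) : NN y (PP y) (y + 5) 0 = - SS y ^ 2 := by
  unfold NN SS PP
  linear_combination ((-865) + (2140)*y + (2664)*y^2 + (-6212)*y^3 + (-4826)*y^4 + (4710)*y^5 + (4529)*y^6 + (771)*y^7 + (50)*y^8 + (1)*y^9) * h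

/-- the Bezout identity -/
theorem bez {R : Type*} [CommRing R] (y z x : R) (hz2 : z ^ 2 = y * x) (hzx : z * x = 8 * z - y ^ 6)
    (h : (199 : R) = 0) : ∃ u v w : R, u * ff y z + v * SS y + w * gg y z x = 1 := by
  refine ⟨((-47) + (-96)*y + (55)*y^2 + (98)*y^3 + (-53)*y^4) + ((-33) + (85)*y + (-29)*y^2 + (55)*y^3 + (-91)*y^4) * z + (0) * x, ((-77) + (35)*y + (81)*y^2 + (-66)*y^3 + (11)*y^4 + (80)*y^5) + ((-47) + (-63)*y + (-61)*y^2 + (53)*y^3) * z + ((-11)*y + (-42)*y^2) * x, ((-91) + (-89)*y + (90)*y^2 + (38)*y^3 + (42)*y^4), ?_⟩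
  unfold ff SS gg PP
  linear_combination (((-33) + (85)*y + (-29)*y^2 + (55)*y^3 + (-91)*y^4) * (y + 5)) * hz2 + ((0) * (y + 5)) * hzx + (((-1398) + (951)*y + (7452)*y^2 + (-1430)*y^3 + (-11330)*y^4 + (-3739)*y^5 + (3061)*y^6 + (3699)*y^7 + (2123)*y^8 + (237)*y^9 + (8)*y^10) + ((-106) + (-64)*y + (468)*y^2 + (249)*y^3 + (-138)*y^4 + (-216)*y^5 + (-145)*y^6 + (-30)*y^7 + (-1)*y^8) * z + ((-9)*y + (-1)*y^2 + (9)*y^3 + (11)*y^4 + (-15)*y^5 + (2)*y^6) * x) * h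

end Pool.Agent.X135.JC
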