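import Pool.Agent.X135.JC.A

set_option autoImplicit false

open Polynomial

namespace Pool.Agent.X135.JC

theorem lead {F : Type*} [Field F] (L R : F[X]) (h : R.natDegree < L.natDegree) (h5 : L.natDegree ≠ 5) :
    (L + R).natDegree ≠ 5 := by
  rw [natDegree_add_eq_left_of_natDegree_lt h]; exact h5

theorem nd3 {F : Type*} [Field F] {a b : F[X]} {m n : ℕ} (ha : a.natDegree ≤ m) (hb : b.natDegree ≤ n) :
    (a * b).natDegree ≤ m + n := natDegree_mul_le_of_le ha hb

theorem deg5 {F : Type*} [Field F] (A B C : F[X]) : (NN X A B C).natDegree ≠ 5 := by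
  obtain ⟨a, ha⟩ : ∃ a, A.natDegree = a := ⟨_, rfl⟩
  obtain ⟨b, hb⟩ : ∃ b, B.natDegree = b := ⟨_, rfl⟩
  obtain ⟨c, hc⟩ : ∃ c, C.natDegree = c := ⟨_, rfl⟩
  have n3 : ∀ (P : F[X]) (n : ℕ), P.natDegree = n → (P ^ 3).natDegree = 3 * n := fun P n h => by
    rw [natDegree_pow, h]
  have num : ∀ n : ℕ, ((n : F[X])).natDegree ≤ 0 := fun n => by rw [natDegree_natCast]
  -- upper bounds of the terms
  have t1 : (16 * A ^ 2 * C).natDegree ≤ 2 * a + c := by
    have := natDegree_mul_le_of_le (natDegree_mul_le_of_le (num 16) (natDegree_pow_le_of_le 2 ha.le)) hc.le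
    refine le_trans this (by omega)
  have t2 : (64 * A * C ^ 2).natDegree ≤ a + 2 * c := by
    have := natDegree_mul_le_of_le (natDegree_mul_le_of_le (num 64) ha.le) (natDegree_pow_le_of_le 2 hc.le)
    refine le_trans this (by omega)
  have t3 : (8 * X * A * B ^ 2).natDegree ≤ 1 + a + 2 * b := by
    have := natDegree_mul_le_of_le (natDegree_mul_le_of_le (natDegree_mul_le_of_le (num 8)
      (natDegree_X_le (R := F))) ha.le) (natDegree_pow_le_of_le 2 hb.le)
    refine le_trans this (by omega)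
  have t4 : (3 * X ^ 6 * A * B * C).natDegree ≤ 6 + a + b + c := by
    have := natDegree_mul_le_of_le (natDegree_mul_le_of_le (natDegree_mul_le_of_le (natDegree_mul_le_of_le (num 3)
      (natDegree_X_pow_le (R := F) 6)) ha.le) hb.le) hc.le
    refine le_trans this (by omega)
  have t5 : (X ^ 11 * C ^ 3).natDegree ≤ 11 + 3 * c := by
    have := natDegree_mul_le_of_le (natDegree_X_pow_le (R := F) 11) (natDegree_pow_le_of_le 3 hc.le)
    refine le_trans this (by omega)
  have t6 : (X ^ 7 * B ^ 3).natDegree ≤ 7 + 3 * b := by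
    have := natDegree_mul_le_of_le (natDegree_X_pow_le (R := F) 7) (natDegree_pow_le_of_le 3 hb.le)
    refine le_trans this (by omega)
  have t7 : (8 * X ^ 6 * B * C ^ 2).natDegree ≤ 6 + b + 2 * c := by
    have := natDegree_mul_le_of_le (natDegree_mul_le_of_le (natDegree_mul_le_of_le (num 8)
      (natDegree_X_pow_le (R := F) 6)) hb.le) (natDegree_pow_le_of_le 2 hc.le)
    refine le_trans this (by omega)
  have e5 : C ≠ 0 → (X ^ 11 * C ^ 3).natDegree = 11 + 3 * c := fun h => by
    rw [natDegree_mul (pow_ne_zero _ X_ne_zero) (pow_ne_zero _ h), natDegree_X_pow, n3 _ _ hc]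
  have e6 : B ≠ 0 → (-(X ^ 7 * B ^ 3)).natDegree = 7 + 3 * b := fun h => by
    rw [natDegree_neg, natDegree_mul (pow_ne_zero _ X_ne_zero) (pow_ne_zero _ h), natDegree_X_pow, n3 _ _ hb]
  have add : ∀ (P Q : F[X]) (n : ℕ), P.natDegree < n → Q.natDegree < n → (P + Q).natDegree < n :=
    fun P Q n h1 h2 => lt_of_le_of_lt (natDegree_add_le _ _) (max_lt h1 h2)
  have sub : ∀ (P Q : F[X]) (n : ℕ), P.natDegree < n → Q.natDegree < n → (P - Q).natDegree < n :=
    fun P Q n h1 h2 => lt_of_le_of_lt (natDegree_sub_le _ _) (max_lt h1 h2)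
  have a3 := n3 _ _ ha
  by_cases hC : C = 0
  · subst hC
    by_cases hB : B = 0
    · subst hB
      have : NN X A 0 0 = A ^ 3 := by unfold NN; ring
      rw [this, a3]; omega
    · rcases lt_trichotomy (3 * a) (7 + 3 * b) with h | h | h
      · have : NN X A B 0 = -(X ^ 7 * B ^ 3) + (A ^ 3 - 8 * X * A * B ^ 2) := by unfold NN; ring
        rw [this]
        refine lead _ _ ?_ (by rw [e6 hB]; omega)
        rw [e6 hB]
        exact sub _ _ _ (by omega) (by omega)
      · omega
      · have : NN X A B 0 = A ^ 3 + (-(X ^ 7 * B ^ 3) - 8 * X * A * B ^ 2) := by unfold NN; ring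
        rw [this]
        refine lead _ _ ?_ (by rw [a3]; omega)
        rw [a3]
        exact sub _ _ _ (by rw [e6 hB]; omega) (by omega)
  · by_cases hB : B = 0
    · subst hB
      rcases lt_trichotomy (3 * a) (11 + 3 * c) with h | h | h
      · have : NN X A 0 C = X ^ 11 * C ^ 3 + (A ^ 3 + 16 * A ^ 2 * C + 64 * A * C ^ 2) := by unfold NN; ring
        rw [this]
        refine lead _ _ ?_ (by rw [e5 hC]; omega)
        rw [e5 hC]
        exact add _ _ _ (add _ _ _ (by omega) (by omega)) (by omega)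
      · omega
      · have : NN X A 0 C = A ^ 3 + (X ^ 11 * C ^ 3 + 16 * A ^ 2 * C + 64 * A * C ^ 2) := by unfold NN; ring
        rw [this]
        refine lead _ _ ?_ (by rw [a3]; omega)
        rw [a3]
        exact add _ _ _ (add _ _ _ (by omega) (by omega)) (by omega)
    · by_cases h1 : 3 * a < 11 + 3 * c ∧ 7 + 3 * b < 11 + 3 * c
      · have : NN X A B C = X ^ 11 * C ^ 3 + (A ^ 3 + 16 * A ^ 2 * C + 64 * A * C ^ 2 + 3 * X ^ 6 * A * B * C
            + 8 * X ^ 6 * B * C ^ 2 - 8 * X * A * B ^ 2 - X ^ 7 * B ^ 3) := by unfold NN; ring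
        rw [this]
        refine lead _ _ ?_ (by rw [e5 hC]; omega)
        rw [e5 hC]
        exact sub _ _ _ (sub _ _ _ (add _ _ _ (add _ _ _ (add _ _ _ (add _ _ _ (by omega) (by omega)) (by omega))
          (by omega)) (by omega)) (by omega)) (by omega)
      · by_cases h2 : 3 * a < 7 + 3 * b
        · have : NN X A B C = -(X ^ 7 * B ^ 3) + (A ^ 3 + 16 * A ^ 2 * C + 64 * A * C ^ 2 + 3 * X ^ 6 * A * B * C
              + 8 * X ^ 6 * B * C ^ 2 - 8 * X * A * B ^ 2 + X ^ 11 * C ^ 3) := by unfold NN; ring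
          rw [this]
          refine lead _ _ ?_ (by rw [e6 hB]; omega)
          rw [e6 hB]
          exact add _ _ _ (sub _ _ _ (add _ _ _ (add _ _ _ (add _ _ _ (add _ _ _ (by omega) (by omega)) (by omega))
            (by omega)) (by omega)) (by omega)) (by omega)
        · have : NN X A B C = A ^ 3 + (X ^ 11 * C ^ 3 + 16 * A ^ 2 * C + 64 * A * C ^ 2 + 3 * X ^ 6 * A * B * C
              + 8 * X ^ 6 * B * C ^ 2 - 8 * X * A * B ^ 2 - X ^ 7 * B ^ 3) := by unfold NN; ring
          rw [this]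
          refine lead _ _ ?_ (by rw [a3]; omega)
          rw [a3]
          exact sub _ _ _ (sub _ _ _ (add _ _ _ (add _ _ _ (add _ _ _ (add _ _ _ (by omega) (by omega)) (by omega))
            (by omega)) (by omega)) (by omega)) (by omega)

end Pool.Agent.X135.JC
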