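import Pool.Agent.X135.JC.B

set_option autoImplicit false

open Polynomial

namespace Pool.Agent.X135.JC

instance p199 : Fact (Nat.Prime 199) := ⟨by norm_num⟩

/-- The polynomial `T (a - T)^k - y^p` in `T` over the field `F(y)`; its root is the function `x` on
the curve `y^p = x (a - x)^k`. -/
noncomputable def curvePoly (F : Type) [Field F] (p k : ℕ) (a : F) : (RatFunc F)[X] :=
  X * (C (RatFunc.C a) - X) ^ k - C (RatFunc.X ^ p)

abbrev F := ZMod 199

/-- the case `p = 11`, `k = 2`, `a = 8`, `l = 199` -/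
noncomputable abbrev cub : (RatFunc F)[X] := curvePoly (ZMod 199) 11 2 8

theorem cub_eq : cub = X ^ 3 - C 16 * X ^ 2 + C 64 * X - C (RatFunc.X ^ 11) := by
  have h8 : (C (RatFunc.C (8 : F)) : (RatFunc F)[X]) = 8 := by
    have : (RatFunc.C (8 : F)) = (8 : RatFunc F) := map_ofNat _ 8
    rw [this]; exact map_ofNat _ 8
  have h16 : (C (16 : RatFunc F) : (RatFunc F)[X]) = 16 := map_ofNat _ 16
  have h64 : (C (64 : RatFunc F) : (RatFunc F)[X]) = 64 := map_ofNat _ 64
  unfold cub curvePoly
  rw [h8, h16, h64]; ring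

theorem cub_deg : cub.natDegree = 3 := by
  rw [cub_eq]; compute_degree!

theorem cub_monic : cub.Monic := by
  rw [cub_eq]; monicity!

/-- its integral model -/
noncomputable def cubP : F[X][X] := X ^ 3 - C 16 * X ^ 2 + C 64 * X - C (X ^ 11)

theorem cubP_monic : cubP.Monic := by unfold cubP; monicity!

theorem no_root (n : F[X]) : n ^ 3 - 16 * n ^ 2 + 64 * n - X ^ 11 ≠ 0 := by
  intro h
  have h1 : n * (C 8 - n) ^ 2 = X ^ 11 := by
    have h8 : (C (8 : F) : F[X]) = 8 := map_ofNat _ 8
    rw [h8]; linear_combination h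
  have h2 : (n * (C 8 - n) ^ 2).natDegree = 11 := by rw [h1, natDegree_X_pow]
  have hn : n ≠ 0 := by rintro rfl; simp at h2
  rcases Nat.eq_zero_or_pos n.natDegree with h0 | h0
  · have h3 : (C 8 - n).natDegree ≤ 0 := by
      refine le_trans (natDegree_sub_le _ _) ?_
      rw [natDegree_C, h0]; simp
    have := natDegree_mul_le_of_le h0.le (natDegree_pow_le_of_le 2 h3)
    rw [h2] at this; omega
  · have h3 : (C 8 - n).natDegree = n.natDegree := by
      rw [natDegree_sub_eq_right_of_natDegree_lt]
      rw [natDegree_C]; exact h0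
    have h4 : C 8 - n ≠ 0 := by
      intro h5; rw [h5] at h3; simp at h3; omega
    rw [natDegree_mul hn (pow_ne_zero _ h4), natDegree_pow, h3] at h2
    omega

theorem cub_irr : Irreducible cub := by
  rw [cub_monic.irreducible_iff_roots_eq_zero_of_degree_le_three (by rw [cub_deg]; norm_num) (by rw [cub_deg])]
  refine Multiset.eq_zero_of_forall_notMem fun r hr => ?_
  have hroot := (mem_roots'.1 hr).2
  rw [cub_eq, IsRoot.def] at hroot
  simp only [eval_sub, eval_add, eval_mul, eval_pow, eval_X, eval_C] at hroot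
  have hr' : aeval r cubP = 0 := by
    unfold cubP
    simp only [map_sub, map_add, map_mul, map_pow, aeval_X, aeval_C, RatFunc.algebraMap_X, map_ofNat]
    exact hroot
  obtain ⟨n, hn⟩ := isInteger_of_is_root_of_monic cubP_monic hr'
  apply no_root n
  apply RatFunc.algebraMap_injective F
  rw [← hn] at hroot
  simp only [map_sub, map_add, map_mul, map_pow, RatFunc.algebraMap_X, map_ofNat, map_zero]
  exact hroot

instance firr : Fact (Irreducible cub) := ⟨cub_irr⟩

noncomputable abbrev K := AdjoinRoot cub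

noncomputable def Yk : RatFunc F := RatFunc.X
noncomputable def Y : K := algebraMap (RatFunc F) K Yk
noncomputable def x : K := AdjoinRoot.root cub
noncomputable def z : K := x * (8 - x) / Y ^ 5

theorem Y0 : Y ≠ 0 := by
  unfold Y Yk
  rw [Ne, map_eq_zero]; exact RatFunc.X_ne_zero

theorem hx : x * (8 - x) ^ 2 = Y ^ 11 := by
  have h0 : ∀ q : (RatFunc F)[X], q = cub → aeval (AdjoinRoot.root cub) q = 0 := by
    rintro q rfl
    rw [AdjoinRoot.aeval_eq, AdjoinRoot.mk_self]
  have h := h0 _ cub_eq.symm
  simp only [map_sub, map_add, map_mul, map_pow, aeval_X, aeval_C, map_ofNat] at h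
  change x ^ 3 - 16 * x ^ 2 + 64 * x - Y ^ 11 = 0 at h
  linear_combination h

theorem hz2 : z ^ 2 = Y * x := by
  have := Y0
  unfold z
  field_simp
  linear_combination x * hx

theorem hzx : z * x = 8 * z - Y ^ 6 := by
  have := Y0
  unfold z
  field_simp
  linear_combination (-1) * hx

theorem hx2 : x * x = 8 * x - Y ^ 5 * z := by
  have := Y0
  unfold z
  field_simp
  ring

theorem h199 : (199 : K) = 0 := by
  have h : ((199 : ℕ) : F) = 0 := ZMod.natCast_self 199
  have h2 : ((199 : ℕ) : K) = algebraMap F[X] K (C ((199 : ℕ) : F)) := by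
    rw [map_natCast C, map_natCast]
  rw [h, map_zero, map_zero] at h2
  exact_mod_cast h2

/-! ### the basis `1, z, x` -/

theorem spanW : ∀ g : K, g ∈ Submodule.span (RatFunc F) ({1, z, x} : Set K) := by
  have hsm : ∀ (a : RatFunc F) (g : K), a • g = algebraMap (RatFunc F) K a * g := fun a g => Algebra.smul_def a g
  have hmul : ∀ g ∈ Submodule.span (RatFunc F) ({1, z, x} : Set K),
      x * g ∈ Submodule.span (RatFunc F) ({1, z, x} : Set K) := by
    intro g hg
    obtain ⟨a, b, c, rfl⟩ := Submodule.mem_span_triple.1 hg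
    refine Submodule.mem_span_triple.2 ⟨-(Yk ^ 6 * b), 8 * b - Yk ^ 5 * c, a + 8 * c, ?_⟩
    simp only [hsm, map_neg, map_mul, map_add, map_sub, map_pow, map_ofNat]
    change -(Y ^ 6 * algebraMap (RatFunc F) K b) * 1 + (8 * algebraMap (RatFunc F) K b - Y ^ 5 * algebraMap (RatFunc F) K c) * z
      + (algebraMap (RatFunc F) K a + 8 * algebraMap (RatFunc F) K c) * x = _
    linear_combination (-algebraMap (RatFunc F) K b) * hzx - (algebraMap (RatFunc F) K c) * hx2
  intro g
  induction g using AdjoinRoot.induction_on with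
  | ih p =>
    induction p using Polynomial.induction_on with
    | C a =>
      refine Submodule.mem_span_triple.2 ⟨a, 0, 0, ?_⟩
      rw [zero_smul, zero_smul, add_zero, add_zero, Algebra.smul_def, mul_one, AdjoinRoot.mk_C]; rfl
    | add p q hp hq => rw [map_add]; exact Submodule.add_mem _ hp hq
    | monomial n a h =>
      have : AdjoinRoot.mk cub (C a * X ^ (n + 1)) = x * AdjoinRoot.mk cub (C a * X ^ n) := by
        have hX : x = AdjoinRoot.mk cub X := rfl
        rw [hX, ← map_mul]; congr 1; ring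
      rw [this]; exact hmul _ h

theorem fin3 : Module.finrank (RatFunc F) K = 3 := by
  rw [(AdjoinRoot.powerBasis cub_irr.ne_zero).finrank, AdjoinRoot.powerBasis_dim, cub_deg]

instance : Module.Finite (RatFunc F) K := (AdjoinRoot.powerBasis cub_irr.ne_zero).finite

noncomputable def bas : Module.Basis (Fin 3) (RatFunc F) K :=
  basisOfTopLeSpanOfCardEqFinrank ![1, z, x]
    (by
      intro g _
      have h := spanW g
      convert h using 2
      ext t
      simp [Matrix.range_cons, Matrix.range_empty]; tauto)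
    (by rw [fin3, Fintype.card_fin])

theorem bas0 : bas 0 = 1 := by simp [bas]
theorem bas1 : bas 1 = z := by simp [bas]
theorem bas2 : bas 2 = x := by simp [bas]

theorem repr_comb (a b c : RatFunc F) (i : Fin 3) :
    bas.repr (a • (1 : K) + b • z + c • x) i = (![a, b, c] : Fin 3 → RatFunc F) i := by
  rw [← bas0, ← bas1, ← bas2]
  fin_cases i <;> simp

theorem lmm (a b c : RatFunc F) : Algebra.leftMulMatrix bas (a • (1 : K) + b • z + c • x) =
    !![a, -(Yk ^ 6 * c), -(Yk ^ 6 * b); b, a + 8 * c, 8 * b - Yk ^ 5 * c; c, Yk * b, a + 8 * c] := by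
  have hsm : ∀ (a : RatFunc F) (g : K), a • g = algebraMap (RatFunc F) K a * g := fun a g => Algebra.smul_def a g
  have e0 : (a • (1 : K) + b • z + c • x) * bas 0 = a • (1 : K) + b • z + c • x := by rw [bas0, mul_one]
  have e1 : (a • (1 : K) + b • z + c • x) * bas 1 =
      (-(Yk ^ 6 * c)) • (1 : K) + (a + 8 * c) • z + (Yk * b) • x := by
    rw [bas1]
    simp only [hsm, map_neg, map_mul, map_add, map_sub, map_pow, map_ofNat]
    change _ = -(Y ^ 6 * algebraMap (RatFunc F) K c) * 1 + (algebraMap (RatFunc F) K a + 8 * algebraMap (RatFunc F) K c) * z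
      + (Y * algebraMap (RatFunc F) K b) * x
    linear_combination (algebraMap (RatFunc F) K b) * hz2 + (algebraMap (RatFunc F) K c) * hzx
  have e2 : (a • (1 : K) + b • z + c • x) * bas 2 =
      (-(Yk ^ 6 * b)) • (1 : K) + (8 * b - Yk ^ 5 * c) • z + (a + 8 * c) • x := by
    rw [bas2]
    simp only [hsm, map_neg, map_mul, map_add, map_sub, map_pow, map_ofNat]
    change _ = -(Y ^ 6 * algebraMap (RatFunc F) K b) * 1 + (8 * algebraMap (RatFunc F) K b - Y ^ 5 * algebraMap (RatFunc F) K c) * z
      + (algebraMap (RatFunc F) K a + 8 * algebraMap (RatFunc F) K c) * x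
    linear_combination (algebraMap (RatFunc F) K b) * hzx + (algebraMap (RatFunc F) K c) * hx2
  ext i j
  rw [Algebra.leftMulMatrix_eq_repr_mul]
  fin_cases j
  · change bas.repr ((a • (1 : K) + b • z + c • x) * bas 0) i = _
    rw [e0, repr_comb]; fin_cases i <;> rfl
  · change bas.repr ((a • (1 : K) + b • z + c • x) * bas 1) i = _
    rw [e1, repr_comb]; fin_cases i <;> rfl
  · change bas.repr ((a • (1 : K) + b • z + c • x) * bas 2) i = _
    rw [e2, repr_comb]; fin_cases i <;> rfl

theorem trace_comb (a b c : RatFunc F) :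
    Algebra.trace (RatFunc F) K (a • (1 : K) + b • z + c • x) = 3 * a + 16 * c := by
  rw [Algebra.trace_eq_matrix_trace bas, lmm, Matrix.trace_fin_three]
  simp; ring

theorem norm_comb (a b c : RatFunc F) :
    Algebra.norm (RatFunc F) (a • (1 : K) + b • z + c • x) = NN Yk a b c := by
  rw [Algebra.norm_eq_matrix_det bas, lmm, Matrix.det_fin_three]
  simp [NN]; ring

end Pool.Agent.X135.JC
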