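import Pool.Agent.X135.JC.C

set_option autoImplicit false

open Polynomial
open scoped Matrix

namespace Pool.Agent.X135.JC

/-- the discriminant of the basis `1, z, x` -/
noncomputable def DD : F[X] := 2048 * X - 27 * X ^ 12

theorem h199P : (199 : F[X]) = 0 := by
  have h : ((199 : ℕ) : F) = 0 := ZMod.natCast_self 199
  have h2 : ((199 : ℕ) : F[X]) = C ((199 : ℕ) : F) := by rw [map_natCast C]
  rw [h, map_zero] at h2
  exact_mod_cast h2

theorem DD_sep : DD.Separable := by
  have hd : derivative DD = 2048 - 324 * X ^ 11 := by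
    unfold DD
    simp only [derivative_sub, derivative_mul, derivative_X_pow, derivative_X, derivative_ofNat]
    simp only [Nat.cast_ofNat, map_ofNat]
    norm_num
    ring
  rw [separable_def, hd]
  unfold DD
  refine ⟨23133600 * X ^ 10, 175 - 1927800 * X ^ 11, ?_⟩
  linear_combination (1801 + (218238300) * X ^ 11) * h199P

theorem trace1 : Algebra.trace (RatFunc F) K 1 = 3 := by
  have := trace_comb 1 0 0
  simpa using this
theorem tracez : Algebra.trace (RatFunc F) K z = 0 := by
  have := trace_comb 0 1 0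
  simpa using this
theorem tracex : Algebra.trace (RatFunc F) K x = 16 := by
  have := trace_comb 0 0 1
  simpa using this
theorem tracezz : Algebra.trace (RatFunc F) K (z * z) = 16 * Yk := by
  have h : z * z = (0 : RatFunc F) • (1 : K) + (0 : RatFunc F) • z + Yk • x := by
    rw [zero_smul, zero_smul, zero_add, zero_add, Algebra.smul_def]
    change z * z = Y * x
    rw [← hz2]; ring
  rw [h, trace_comb]; ring
theorem tracezx : Algebra.trace (RatFunc F) K (z * x) = -3 * Yk ^ 6 := by
  have h : z * x = (-(Yk ^ 6)) • (1 : K) + (8 : RatFunc F) • z + (0 : RatFunc F) • x := by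
    simp only [Algebra.smul_def, map_neg, map_pow, map_ofNat, map_zero]
    change z * x = -(Y ^ 6) * 1 + 8 * z + 0 * x
    rw [hzx]; ring
  rw [h, trace_comb]; ring
theorem tracexx : Algebra.trace (RatFunc F) K (x * x) = 128 := by
  have h : x * x = (0 : RatFunc F) • (1 : K) + (-(Yk ^ 5)) • z + (8 : RatFunc F) • x := by
    simp only [Algebra.smul_def, map_neg, map_pow, map_ofNat, map_zero]
    change x * x = 0 * 1 + -(Y ^ 5) * z + 8 * x
    rw [hx2]; ring
  rw [h, trace_comb]; ring

theorem discr1 : Algebra.discr (RatFunc F) ![1, z, x] = algebraMap F[X] (RatFunc F) DD := by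
  rw [Algebra.discr_def, Matrix.det_fin_three]
  have t : ∀ i j : Fin 3, Algebra.traceMatrix (RatFunc F) (![1, z, x] : Fin 3 → K) i j =
      Algebra.trace (RatFunc F) K ((![1, z, x] : Fin 3 → K) i * (![1, z, x] : Fin 3 → K) j) := fun i j => rfl
  have t00 : Algebra.traceMatrix (RatFunc F) (![1, z, x] : Fin 3 → K) 0 0 = 3 := by
    rw [t]; change Algebra.trace (RatFunc F) K (1 * 1) = 3; rw [mul_one, trace1]
  have t01 : Algebra.traceMatrix (RatFunc F) (![1, z, x] : Fin 3 → K) 0 1 = 0 := by
    rw [t]; change Algebra.trace (RatFunc F) K (1 * z) = 0; rw [one_mul, tracez]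
  have t02 : Algebra.traceMatrix (RatFunc F) (![1, z, x] : Fin 3 → K) 0 2 = 16 := by
    rw [t]; change Algebra.trace (RatFunc F) K (1 * x) = 16; rw [one_mul, tracex]
  have t10 : Algebra.traceMatrix (RatFunc F) (![1, z, x] : Fin 3 → K) 1 0 = 0 := by
    rw [t]; change Algebra.trace (RatFunc F) K (z * 1) = 0; rw [mul_one, tracez]
  have t11 : Algebra.traceMatrix (RatFunc F) (![1, z, x] : Fin 3 → K) 1 1 = 16 * Yk := by
    rw [t]; change Algebra.trace (RatFunc F) K (z * z) = _; rw [tracezz]
  have t12 : Algebra.traceMatrix (RatFunc F) (![1, z, x] : Fin 3 → K) 1 2 = -3 * Yk ^ 6 := by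
    rw [t]; change Algebra.trace (RatFunc F) K (z * x) = _; rw [tracezx]
  have t20 : Algebra.traceMatrix (RatFunc F) (![1, z, x] : Fin 3 → K) 2 0 = 16 := by
    rw [t]; change Algebra.trace (RatFunc F) K (x * 1) = 16; rw [mul_one, tracex]
  have t21 : Algebra.traceMatrix (RatFunc F) (![1, z, x] : Fin 3 → K) 2 1 = -3 * Yk ^ 6 := by
    rw [t]; change Algebra.trace (RatFunc F) K (x * z) = _; rw [mul_comm, tracezx]
  have t22 : Algebra.traceMatrix (RatFunc F) (![1, z, x] : Fin 3 → K) 2 2 = 128 := by
    rw [t]; change Algebra.trace (RatFunc F) K (x * x) = _; rw [tracexx]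
  rw [t00, t01, t02, t10, t11, t12, t20, t21, t22]
  unfold DD
  simp only [map_sub, map_mul, map_pow, map_ofNat, RatFunc.algebraMap_X]
  change _ = 2048 * Yk - 27 * Yk ^ 12
  ring

theorem sqf (c : RatFunc F) (q d : F[X]) (hq : q.Separable)
    (h : algebraMap F[X] (RatFunc F) d = c ^ 2 * algebraMap F[X] (RatFunc F) q) :
    ∃ c' : F[X], algebraMap F[X] (RatFunc F) c' = c := by
  have hden := RatFunc.denom_ne_zero c
  have hden' : algebraMap F[X] (RatFunc F) c.denom ≠ 0 := by
    rw [Ne, ← map_zero (algebraMap F[X] (RatFunc F)), (RatFunc.algebraMap_injective F).eq_iff]; exact hden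
  have hc : c * algebraMap F[X] (RatFunc F) c.denom = algebraMap F[X] (RatFunc F) c.num := by
    have := RatFunc.num_div_denom c
    rw [div_eq_iff hden'] at this
    exact this.symm
  have e : c.num ^ 2 * q = d * c.denom ^ 2 := by
    apply RatFunc.algebraMap_injective F
    rw [map_mul, map_mul, map_pow, map_pow, ← hc, h]; ring
  have hcop : IsCoprime (c.denom ^ 2) (c.num ^ 2) := ((RatFunc.isCoprime_num_denom c).symm).pow
  have hdv : c.denom ^ 2 ∣ q := by
    have : c.denom ^ 2 ∣ c.num ^ 2 * q := ⟨d, by rw [e]; ring⟩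
    exact hcop.dvd_of_dvd_mul_left this
  have hu : IsUnit c.denom := isUnit_of_self_mul_dvd_separable hq (by rw [← sq]; exact hdv)
  obtain ⟨u, hu⟩ := hu
  refine ⟨c.num * (↑u⁻¹ : F[X]), ?_⟩
  rw [map_mul, ← hc, mul_assoc, ← map_mul, ← hu, Units.mul_inv, map_one, mul_one]

noncomputable abbrev RR := FunctionField.ringOfIntegers (ZMod 199) K

theorem int_x : IsIntegral F[X] x := by
  refine ⟨cubP, cubP_monic, ?_⟩
  unfold cubP
  simp only [eval₂_sub, eval₂_add, eval₂_mul, eval₂_pow, eval₂_X, eval₂_C, map_ofNat, map_pow, eval₂_ofNat]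
  have hY : algebraMap F[X] K X = Y := by
    rw [IsScalarTower.algebraMap_apply F[X] (RatFunc F) K, RatFunc.algebraMap_X]; rfl
  rw [hY]
  linear_combination hx

theorem int_Y : IsIntegral F[X] Y := by
  have hY : algebraMap F[X] K X = Y := by
    rw [IsScalarTower.algebraMap_apply F[X] (RatFunc F) K, RatFunc.algebraMap_X]; rfl
  rw [← hY]; exact isIntegral_algebraMap

theorem int_z : IsIntegral F[X] z := by
  apply IsIntegral.of_pow (n := 2) (by norm_num)
  rw [hz2]; exact int_Y.mul int_x

theorem coord (g : K) (hg : IsIntegral F[X] g) : ∃ a b c : F[X],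
    g = (algebraMap F[X] (RatFunc F) a) • (1 : K) + (algebraMap F[X] (RatFunc F) b) • z
      + (algebraMap F[X] (RatFunc F) c) • x := by
  obtain ⟨a, b, c, habc⟩ := Submodule.mem_span_triple.1 (spanW g)
  have key : ∀ (v : Fin 3 → K) (P : Matrix (Fin 3) (Fin 3) (RatFunc F)) (t : RatFunc F), P.det = t →
      (![1, z, x] : Fin 3 → K) ᵥ* P.map (algebraMap (RatFunc F) K) = v → (∀ i, IsIntegral F[X] (v i)) →
      ∃ t' : F[X], algebraMap F[X] (RatFunc F) t' = t := by
    intro v P t hP hv hi
    have h1 := Algebra.discr_isIntegral (RatFunc F) hi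
    rw [← hv, Algebra.discr_of_matrix_vecMul, hP, discr1] at h1
    obtain ⟨d, hd⟩ := IsIntegrallyClosed.isIntegral_iff.1 h1
    exact sqf t DD d DD_sep hd
  have hsm : ∀ (a : RatFunc F) (g : K), a • g = algebraMap (RatFunc F) K a * g := fun a g => Algebra.smul_def a g
  have hg' : g = algebraMap (RatFunc F) K a + z * algebraMap (RatFunc F) K b + x * algebraMap (RatFunc F) K c := by
    rw [← habc, hsm, hsm, hsm]; ring
  obtain ⟨a', ha⟩ := key ![g, z, x] !![a, 0, 0; b, 1, 0; c, 0, 1] a (by rw [Matrix.det_fin_three]; simp)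
    (by
      ext i
      fin_cases i
      · simp [Matrix.vecMul, dotProduct, Fin.sum_univ_three]; rw [hg']; rfl
      · simp [Matrix.vecMul, dotProduct, Fin.sum_univ_three]
      · simp [Matrix.vecMul, dotProduct, Fin.sum_univ_three])
    (by intro i; fin_cases i; exacts [hg, int_z, int_x])
  obtain ⟨b', hb⟩ := key ![1, g, x] !![1, a, 0; 0, b, 0; 0, c, 1] b (by rw [Matrix.det_fin_three]; simp)
    (by
      ext i
      fin_cases i
      · simp [Matrix.vecMul, dotProduct, Fin.sum_univ_three]
      · simp [Matrix.vecMul, dotProduct, Fin.sum_univ_three]; rw [hg']; rfl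
      · simp [Matrix.vecMul, dotProduct, Fin.sum_univ_three])
    (by intro i; fin_cases i; exacts [isIntegral_one, hg, int_x])
  obtain ⟨c', hc⟩ := key ![1, z, g] !![1, 0, a; 0, 1, b; 0, 0, c] c (by rw [Matrix.det_fin_three]; simp)
    (by
      ext i
      fin_cases i
      · simp [Matrix.vecMul, dotProduct, Fin.sum_univ_three]
      · simp [Matrix.vecMul, dotProduct, Fin.sum_univ_three]
      · simp [Matrix.vecMul, dotProduct, Fin.sum_univ_three]; rw [hg']; rfl)
    (by intro i; fin_cases i; exacts [isIntegral_one, int_z, hg])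
  exact ⟨a', b', c', by rw [ha, hb, hc, habc]⟩

end Pool.Agent.X135.JC
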