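import Pool.Agent.X135.JC.D

set_option autoImplicit false

open Polynomial
open scoped nonZeroDivisors

namespace Pool.Agent.X135.JC

instance sepK : Algebra.IsSeparable (RatFunc F) K := by
  by_contra h
  have h1 := Algebra.trace_eq_zero_of_not_isSeparable h
  have h2 := trace1
  rw [h1, LinearMap.zero_apply] at h2
  have h3 : algebraMap F[X] (RatFunc F) (C 0) = algebraMap F[X] (RatFunc F) (C 3) := by
    have e3 : (C (3 : F) : F[X]) = 3 := map_ofNat _ 3
    rw [e3, map_zero, map_zero, map_ofNat]; exact h2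
  have h4 := C_injective (RatFunc.algebraMap_injective F h3)
  exact absurd h4 (by decide)

instance ffK : FunctionField (ZMod 199) K := inferInstance

noncomputable def yR : RR := ⟨Y, int_Y⟩
noncomputable def zR : RR := ⟨z, int_z⟩
noncomputable def xR : RR := ⟨x, int_x⟩

theorem hz2R : zR ^ 2 = yR * xR := Subtype.ext hz2
theorem h199R : (199 : RR) = 0 := Subtype.ext h199
theorem hzxR : zR * xR = 8 * zR - yR ^ 6 := Subtype.ext hzx

noncomputable def fR : RR := ff yR zR
noncomputable def gR : RR := gg yR zR xR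
noncomputable def sR : RR := SS yR

theorem fgR : fR * gR = - sR ^ 2 := fg yR zR xR hz2R hzxR h199R
theorem bezR : ∃ u v w : RR, u * fR + v * sR + w * gR = 1 := bez yR zR xR hz2R hzxR h199R

/-- the ideal whose class has order two -/
noncomputable def II : Ideal RR := Ideal.span {fR, sR}

theorem II_sq : II * II = Ideal.span {fR} := by
  unfold II
  rw [Ideal.span_pair_mul_span_pair]
  obtain ⟨u, v, w, h⟩ := bezR
  have h2 := fgR
  apply le_antisymm
  · rw [Ideal.span_le]
    rintro t (rfl | rfl | rfl | rfl)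
    · exact Ideal.mem_span_singleton.2 ⟨fR, rfl⟩
    · exact Ideal.mem_span_singleton.2 ⟨sR, rfl⟩
    · exact Ideal.mem_span_singleton.2 ⟨sR, by ring⟩
    · exact Ideal.mem_span_singleton.2 ⟨-gR, by linear_combination h2⟩
  · rw [Ideal.span_le]
    rintro t rfl
    have e : fR = u * (fR * fR) + v * (fR * sR) + (-w) * (sR * sR) := by
      linear_combination (-fR) * h + w * h2
    have hm : u * (fR * fR) + v * (fR * sR) + (-w) * (sR * sR) ∈
        Ideal.span {fR * fR, fR * sR, sR * fR, sR * sR} := by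
      refine Ideal.add_mem _ (Ideal.add_mem _ (Ideal.mul_mem_left _ _ (Ideal.subset_span ?_))
        (Ideal.mul_mem_left _ _ (Ideal.subset_span ?_))) (Ideal.mul_mem_left _ _ (Ideal.subset_span ?_))
      · exact Or.inl rfl
      · exact Or.inr (Or.inl rfl)
      · exact Or.inr (Or.inr (Or.inr rfl))
    rw [← e] at hm
    exact hm

/-- the norm of an element of the ring is the norm form of its coordinates -/
theorem normR (t : RR) : ∃ a b c : F[X],
    Algebra.norm (RatFunc F) (t : K) = algebraMap F[X] (RatFunc F) (NN X a b c) := by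
  obtain ⟨a, b, c, h⟩ := coord (t : K) t.2
  refine ⟨a, b, c, ?_⟩
  rw [h, norm_comb]
  unfold NN
  simp only [map_add, map_sub, map_mul, map_pow, map_ofNat, RatFunc.algebraMap_X]
  rfl

theorem norm_f : Algebra.norm (RatFunc F) (fR : K) = algebraMap F[X] (RatFunc F) (- SS X ^ 2) := by
  have h : (fR : K) = (algebraMap F[X] (RatFunc F) (PP X)) • (1 : K)
      + (algebraMap F[X] (RatFunc F) (X + 5)) • z + (algebraMap F[X] (RatFunc F) 0) • x := by
    simp only [Algebra.smul_def]
    unfold PP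
    simp only [map_add, map_sub, map_mul, map_pow, map_ofNat, RatFunc.algebraMap_X, map_neg, map_zero]
    change ff Y z = (-56 + 44 * Y + 91 * Y ^ 2 + 6 * Y ^ 3) * 1 + (Y + 5) * z + 0 * x
    unfold ff PP
    ring
  rw [h, norm_comb, ← nf X h199P]
  unfold NN
  simp only [map_add, map_sub, map_mul, map_pow, map_ofNat, RatFunc.algebraMap_X]
  rfl

theorem degS : (- SS (X : F[X]) ^ 2).natDegree = 10 := by
  have h : (SS (X : F[X])).natDegree = 5 := by
    unfold SS
    compute_degree!
  rw [natDegree_neg, natDegree_pow, h]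

theorem fR_ne : fR ≠ 0 := by
  intro h
  have h1 := norm_f
  rw [h] at h1
  have h2 : Algebra.norm (RatFunc F) ((0 : RR) : K) = 0 := by
    change Algebra.norm (RatFunc F) (0 : K) = 0
    rw [Algebra.norm_zero]
  rw [h2, ← map_zero (algebraMap F[X] (RatFunc F))] at h1
  have h3 := RatFunc.algebraMap_injective F h1
  have h4 := degS
  rw [← h3] at h4
  simp at h4

theorem II_np : ¬ II.IsPrincipal := by
  rintro ⟨g, hg⟩
  have hg' : II = Ideal.span {g} := hg
  have h1 : Ideal.span {g * g} = Ideal.span {fR} := by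
    rw [← II_sq, hg', Ideal.span_singleton_mul_span_singleton]
  obtain ⟨u, hu⟩ := Ideal.span_singleton_eq_span_singleton.1 h1
  obtain ⟨a1, b1, c1, n1⟩ := normR g
  obtain ⟨a2, b2, c2, n2⟩ := normR (u : RR)
  obtain ⟨a3, b3, c3, n3⟩ := normR ((u⁻¹ : RRˣ) : RR)
  have e1 : (NN X a2 b2 c2 : F[X]) * NN X a3 b3 c3 = 1 := by
    apply RatFunc.algebraMap_injective F
    rw [map_mul, ← n2, ← n3, ← map_mul, map_one]
    have : ((u : RR) : K) * (((u⁻¹ : RRˣ) : RR) : K) = 1 := by
      have := congrArg (fun t : RR => (t : K)) u.mul_inv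
      exact this
    rw [this, map_one]
  have e2 : (NN X a1 b1 c1 : F[X]) * NN X a1 b1 c1 * NN X a2 b2 c2 = - SS X ^ 2 := by
    apply RatFunc.algebraMap_injective F
    rw [map_mul, map_mul, ← n1, ← n2, ← norm_f, ← map_mul, ← map_mul]
    congr 1
    exact congrArg (fun t : RR => (t : K)) hu
  have hu2 : (NN X a2 b2 c2 : F[X]).natDegree = 0 := natDegree_eq_zero_of_isUnit (IsUnit.of_mul_eq_one _ e1)
  have z2 : (NN X a2 b2 c2 : F[X]) ≠ 0 := left_ne_zero_of_mul (by rw [e1]; exact one_ne_zero)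
  have z1 : (NN X a1 b1 c1 : F[X]) ≠ 0 := by
    intro h
    rw [h, zero_mul, zero_mul] at e2
    have h4 := degS
    rw [← e2] at h4
    simp at h4
  have e3 : (NN X a1 b1 c1 : F[X]).natDegree + (NN X a1 b1 c1 : F[X]).natDegree + 0 = 10 := by
    rw [← hu2, ← natDegree_mul z1 z1, ← natDegree_mul (mul_ne_zero z1 z1) z2, e2, degS]
  exact deg5 a1 b1 c1 (by omega)

theorem II_ne : II ≠ ⊥ := by
  intro h
  have : fR ∈ II := Ideal.subset_span (by simp)
  rw [h, Ideal.mem_bot] at this
  exact fR_ne this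

theorem even_card : Finite (ClassGroup RR) ∧ Even (Nat.card (ClassGroup RR)) := by
  have fi : Finite (ClassGroup RR) := by
    have := FunctionField.RingOfIntegers.instFintypeClassGroupSubtypeMemSubalgebraPolynomialRingOfIntegers
    infer_instance
  refine ⟨fi, ?_⟩
  have hI : II ∈ (Ideal RR)⁰ := mem_nonZeroDivisors_of_ne_zero II_ne
  have h1 : ClassGroup.mk0 ⟨II, hI⟩ ≠ 1 := by
    rw [Ne, ClassGroup.mk0_eq_one_iff]; exact II_np
  have h2 : ClassGroup.mk0 ⟨II, hI⟩ ^ 2 = 1 := by
    have hJ : II * II ∈ (Ideal RR)⁰ := mul_mem hI hI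
    have : (⟨II, hI⟩ : (Ideal RR)⁰) ^ 2 = ⟨II * II, hJ⟩ := by
      apply Subtype.ext; change II ^ 2 = II * II; rw [sq]
    rw [← map_pow, this, ClassGroup.mk0_eq_one_iff, II_sq]
    exact ⟨fR, rfl⟩
  have h3 := orderOf_eq_prime h2 h1
  exact (even_iff_two_dvd).2 (h3 ▸ orderOf_dvd_natCard (ClassGroup.mk0 ⟨II, hI⟩))

end Pool.Agent.X135.JC
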