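import Pool.Agent.X135.JC.E

/-!
The place at infinity: exactly one valuation ring of `K` does not contain `Y`, and its residue field
is the field of constants.
-/

set_option autoImplicit false

open Polynomial

namespace Pool.Agent.X135.JC

variable (V : ValuationSubring K)

theorem valR (hy : Y ∉ V) (r : RatFunc F) (hr : r ≠ 0) :
    V.valuation (algebraMap (RatFunc F) K r) = V.valuation Y ^ r.intDegree := by
  have hw : 1 < V.valuation Y := by rw [← not_le, V.valuation_le_one_iff]; exact hy
  exact RatFunc.valuation_eq_valuation_X_zpow_intDegree_of_one_lt_valuation_X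
    (v := V.valuation.comap (algebraMap (RatFunc F) K)) hw hr

theorem wx (hy : Y ∉ V) : V.valuation x ^ 3 = V.valuation Y ^ 11 := by
  have hw : 1 < V.valuation Y := by rw [← not_le, V.valuation_le_one_iff]; exact hy
  have hw11 : 1 < V.valuation Y ^ 11 := one_lt_pow₀ hw (by norm_num)
  have h8 : V.valuation (8 : K) ≤ 1 := (V.valuation_le_one_iff _).2 (ofNat_mem V 8)
  have h := congrArg V.valuation hx
  rw [map_mul, map_pow, map_pow] at h
  have hx1 : 1 < V.valuation x := by
    by_contra hle
    rw [not_lt] at hle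
    have h1 : V.valuation (8 - x) ≤ 1 := V.valuation.map_sub_le h8 hle
    have h2 : V.valuation x * V.valuation (8 - x) ^ 2 ≤ 1 := mul_le_one' hle (pow_le_one' h1 2)
    rw [h] at h2
    exact absurd h2 (not_le.2 hw11)
  rw [V.valuation.map_sub_eq_of_lt_right (lt_of_le_of_lt h8 hx1)] at h
  rw [← h, pow_succ' (V.valuation x) 2]

theorem wz (hy : Y ∉ V) : V.valuation z ^ 3 = V.valuation Y ^ 7 := by
  have h := congrArg V.valuation hz2
  rw [map_pow, map_mul] at h
  have h2 : (V.valuation z ^ 3) ^ 2 = (V.valuation Y ^ 7) ^ 2 := by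
    calc (V.valuation z ^ 3) ^ 2 = (V.valuation z ^ 2) ^ 3 := by rw [← pow_mul, ← pow_mul]
      _ = (V.valuation Y ^ 7) ^ 2 := by rw [h, mul_pow, wx V hy, ← pow_add, ← pow_mul]
  exact (pow_left_inj₀ zero_le zero_le two_ne_zero).1 h2

/-- the cube of the valuation of `b • t` -/
theorem cubes (hy : Y ∉ V) (t : K) (n : ℕ) (ht : V.valuation t ^ 3 = V.valuation Y ^ n) (b : RatFunc F)
    (hb : b ≠ 0) : V.valuation (b • t) ^ 3 = V.valuation Y ^ (3 * b.intDegree + n) := by
  have hw : 1 < V.valuation Y := by rw [← not_le, V.valuation_le_one_iff]; exact hy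
  have hw0 : V.valuation Y ≠ 0 := (lt_trans zero_lt_one hw).ne'
  rw [Algebra.smul_def, map_mul, mul_pow, ht, valR V hy b hb, zpow_add₀ hw0, zpow_natCast]
  congr 1
  rw [← zpow_natCast, ← zpow_mul, mul_comm]
  rfl

theorem one3 : V.valuation (1 : K) ^ 3 = V.valuation Y ^ 0 := by simp

/-- valuations of terms with different residues mod 3 differ -/
theorem distinct (hy : Y ∉ V) (s t : K) (m n : ℕ) (hs : V.valuation s ^ 3 = V.valuation Y ^ m)
    (ht : V.valuation t ^ 3 = V.valuation Y ^ n) (hmn : m % 3 ≠ n % 3) (a b : RatFunc F)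
    (h : V.valuation (a • s) = V.valuation (b • t)) : V.valuation (a • s) = 0 := by
  have hw : 1 < V.valuation Y := by rw [← not_le, V.valuation_le_one_iff]; exact hy
  have hw0 : 0 < V.valuation Y := lt_trans zero_lt_one hw
  by_cases ha : a = 0
  · rw [ha, zero_smul, map_zero]
  by_cases hb : b = 0
  · rw [h, hb, zero_smul, map_zero]
  exfalso
  have h3 : V.valuation (a • s) ^ 3 = V.valuation (b • t) ^ 3 := by rw [h]
  rw [cubes V hy s m hs a ha, cubes V hy t n ht b hb] at h3
  have := zpow_right_injective₀ hw0 hw.ne' h3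
  omega

theorem small (hy : Y ∉ V) (t : K) (n : ℕ) (ht : V.valuation t ^ 3 = V.valuation Y ^ n) (b : RatFunc F) :
    V.valuation (b • t) ≤ 1 ↔ b = 0 ∨ 3 * b.intDegree + n ≤ 0 := by
  have hw : 1 < V.valuation Y := by rw [← not_le, V.valuation_le_one_iff]; exact hy
  by_cases hb : b = 0
  · simp [hb]
  rw [← pow_le_one_iff_of_nonneg zero_le (three_ne_zero), cubes V hy t n ht b hb, or_iff_right hb,
    zpow_le_one_iff_right₀ hw]

theorem smaller (hy : Y ∉ V) (t : K) (n : ℕ) (ht : V.valuation t ^ 3 = V.valuation Y ^ n) (hn : n % 3 ≠ 0)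
    (b : RatFunc F) (h : V.valuation (b • t) ≤ 1) : V.valuation (b • t) < 1 := by
  have hw : 1 < V.valuation Y := by rw [← not_le, V.valuation_le_one_iff]; exact hy
  by_cases hb : b = 0
  · simp [hb]
  have h1 := (small V hy t n ht b).1 h
  refine lt_of_le_of_ne h fun h2 => ?_
  have h3 : V.valuation (b • t) ^ 3 = 1 := by rw [h2, one_pow]
  rw [cubes V hy t n ht b hb, ← zpow_zero (V.valuation Y)] at h3
  have := zpow_right_injective₀ (lt_trans zero_lt_one hw) hw.ne' h3
  omega

theorem two_max (s t : K) (h : V.valuation s = V.valuation t → V.valuation s = 0) :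
    V.valuation (s + t) = max (V.valuation s) (V.valuation t) := by
  by_cases e : V.valuation s = V.valuation t
  · have h0 := h e
    have h1 : V.valuation t = 0 := by rw [← e, h0]
    rw [(V.valuation.zero_iff).1 h0, (V.valuation.zero_iff).1 h1]; simp
  · exact V.valuation.map_add_of_distinct_val e

theorem val_max (hy : Y ∉ V) (a b c : RatFunc F) : V.valuation (a • (1 : K) + b • z + c • x) =
    max (max (V.valuation (a • (1 : K))) (V.valuation (b • z))) (V.valuation (c • x)) := by
  have h1 := one3 V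
  have h2 := wz V hy
  have h3 := wx V hy
  have e1 := two_max V (a • (1 : K)) (b • z) (distinct V hy 1 z 0 7 h1 h2 (by norm_num) a b)
  rw [two_max V (a • (1 : K) + b • z) (c • x), e1]
  intro e
  rw [e1] at e ⊢
  rcases max_choice (V.valuation (a • (1 : K))) (V.valuation (b • z)) with h | h
  · rw [h] at e ⊢
    exact distinct V hy 1 x 0 11 h1 h3 (by norm_num) a c e
  · rw [h] at e ⊢
    exact distinct V hy z x 7 11 h2 h3 (by norm_num) b c e

theorem mem_iff (hy : Y ∉ V) (a b c : RatFunc F) : a • (1 : K) + b • z + c • x ∈ V ↔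
    ((a = 0 ∨ 3 * a.intDegree + (0 : ℕ) ≤ 0) ∧ (b = 0 ∨ 3 * b.intDegree + (7 : ℕ) ≤ 0)) ∧
      (c = 0 ∨ 3 * c.intDegree + (11 : ℕ) ≤ 0) := by
  rw [← V.valuation_le_one_iff, val_max V hy, max_le_iff, max_le_iff, small V hy 1 0 (one3 V),
    small V hy z 7 (wz V hy), small V hy x 11 (wx V hy)]

theorem uniqueV (V W : ValuationSubring K) (hV : Y ∉ V) (hW : Y ∉ W) : W = V := by
  ext g
  obtain ⟨a, b, c, rfl⟩ := Submodule.mem_span_triple.1 (spanW g)
  rw [mem_iff V hV, mem_iff W hW]

theorem residue (hy : Y ∉ V) (g : K) (hg : g ∈ V) :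
    ∃ c : F, V.valuation (g - algebraMap (RatFunc F) K (RatFunc.C c)) < 1 := by
  have hw : 1 < V.valuation Y := by rw [← not_le, V.valuation_le_one_iff]; exact hy
  obtain ⟨a, b, c, rfl⟩ := Submodule.mem_span_triple.1 (spanW g)
  rw [← V.valuation_le_one_iff, val_max V hy, max_le_iff, max_le_iff] at hg
  obtain ⟨⟨ga, gb⟩, gc⟩ := hg
  have gb' := smaller V hy z 7 (wz V hy) (by norm_num) b gb
  have gc' := smaller V hy x 11 (wx V hy) (by norm_num) c gc
  have key : ∃ c0 : F, V.valuation ((a - RatFunc.C c0) • (1 : K)) < 1 := by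
    have hsm : ∀ r : RatFunc F, r ≠ 0 → r.intDegree < 0 → V.valuation (r • (1 : K)) < 1 := by
      intro r hr hd
      rw [Algebra.smul_def, mul_one, valR V hy r hr]
      exact zpow_lt_one_of_neg₀ hw hd
    by_cases ha : a = 0
    · exact ⟨0, by simp [ha]⟩
    have hd : a.intDegree ≤ 0 := by
      rcases (small V hy 1 0 (one3 V) a).1 ga with h | h
      · exact absurd h ha
      · omega
    rcases hd.lt_or_eq with hd | hd
    · exact ⟨0, by rw [map_zero, sub_zero]; exact hsm a ha hd⟩
    · refine ⟨a.num.leadingCoeff, ?_⟩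
      by_cases h0 : a - RatFunc.C a.num.leadingCoeff = 0
      · rw [h0]; simp
      apply hsm _ h0
      have hden := RatFunc.denom_ne_zero a
      have hden' : algebraMap F[X] (RatFunc F) a.denom ≠ 0 := by
        rw [Ne, ← map_zero (algebraMap F[X] (RatFunc F)), (RatFunc.algebraMap_injective F).eq_iff]; exact hden
      have e : a - RatFunc.C a.num.leadingCoeff =
          algebraMap F[X] (RatFunc F) (a.num - C a.num.leadingCoeff * a.denom) /
            algebraMap F[X] (RatFunc F) a.denom := by
        rw [eq_div_iff hden', map_sub, map_mul, RatFunc.algebraMap_C, sub_mul]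
        congr 1
        conv_lhs => rw [← RatFunc.num_div_denom a]
        rw [RatFunc.num_div_denom a]
        rw [← eq_div_iff hden', RatFunc.num_div_denom]
      have hn0 : a.num - C a.num.leadingCoeff * a.denom ≠ 0 := by
        intro h; rw [e, h, map_zero, zero_div] at h0; exact h0 rfl
      have hdd : a.num.natDegree = a.denom.natDegree := by
        unfold RatFunc.intDegree at hd; omega
      rw [e, RatFunc.intDegree_div (by rw [Ne, ← map_zero (algebraMap F[X] (RatFunc F)), (RatFunc.algebraMap_injective F).eq_iff]; exact hn0) hden',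
        RatFunc.intDegree_polynomial, RatFunc.intDegree_polynomial]
      have hlt : (a.num - C a.num.leadingCoeff * a.denom).degree < a.num.degree := by
        have hl : a.num.leadingCoeff ≠ 0 := by
          rw [Ne, leadingCoeff_eq_zero, RatFunc.num_eq_zero_iff]; exact ha
        have hnz : a.num ≠ 0 := by rw [Ne, RatFunc.num_eq_zero_iff]; exact ha
        apply degree_sub_lt
        · rw [degree_C_mul hl, degree_eq_natDegree hnz, degree_eq_natDegree hden, hdd]
        · exact hnz
        · rw [leadingCoeff_mul, leadingCoeff_C, (RatFunc.monic_denom a).leadingCoeff, mul_one]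
      have := natDegree_lt_natDegree hn0 hlt
      omega
  obtain ⟨c0, hc0⟩ := key
  refine ⟨c0, ?_⟩
  have e : a • (1 : K) + b • z + c • x - algebraMap (RatFunc F) K (RatFunc.C c0) =
      (a - RatFunc.C c0) • (1 : K) + b • z + c • x := by
    rw [sub_smul, Algebra.smul_def (RatFunc.C c0), mul_one]; ring
  rw [e]
  exact V.valuation.map_add_lt (V.valuation.map_add_lt hc0 gb') gc'

theorem existsV : ∃ V : ValuationSubring K, Y ∉ V := by
  classical
  obtain ⟨A, hA, hloc⟩ := IsLocalRing.exists_factor_valuationRing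
    (R := (RatFunc.inftyValuation F).valuationSubring)
    (K := K) ((algebraMap (RatFunc F) K).comp (RatFunc.inftyValuation F).valuationSubring.subtype)
  refine ⟨A, fun hYA => ?_⟩
  have hXi : (RatFunc.X : RatFunc F)⁻¹ ∈ (RatFunc.inftyValuation F).valuationSubring := by
    rw [Valuation.mem_valuationSubring_iff, map_inv₀, RatFunc.inftyValuation.X, ← WithZero.exp_neg]
    rw [← WithZero.exp_zero, WithZero.exp_le_exp]; norm_num
  have hXn : (RatFunc.X : RatFunc F) ∉ (RatFunc.inftyValuation F).valuationSubring := by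
    rw [Valuation.mem_valuationSubring_iff, RatFunc.inftyValuation.X, not_le, ← WithZero.exp_zero,
      WithZero.exp_lt_exp]; norm_num
  have hu : IsUnit (((algebraMap (RatFunc F) K).comp (RatFunc.inftyValuation F).valuationSubring.subtype).codRestrict
      A.toSubring hA ⟨_, hXi⟩) := by
    refine IsUnit.of_mul_eq_one ⟨Y, hYA⟩ ?_
    apply Subtype.ext
    change algebraMap (RatFunc F) K (RatFunc.X)⁻¹ * Y = 1
    rw [map_inv₀]
    exact inv_mul_cancel₀ Y0
  have hu2 := hloc.map_nonunit _ hu
  obtain ⟨u, hu3⟩ := hu2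
  apply hXn
  have h1 : (u : (RatFunc.inftyValuation F).valuationSubring).1 * (↑u⁻¹ : (RatFunc.inftyValuation F).valuationSubring).1 = 1 :=
    congrArg Subtype.val u.mul_inv
  rw [hu3] at h1
  have h2 : (↑u⁻¹ : (RatFunc.inftyValuation F).valuationSubring).1 = RatFunc.X := by
    have := congrArg (fun t => RatFunc.X * t) h1
    simp only [mul_one] at this
    rw [← mul_assoc, mul_inv_cancel₀ RatFunc.X_ne_zero, one_mul] at this
    exact this
  rw [← h2]
  exact (↑u⁻¹ : (RatFunc.inftyValuation F).valuationSubring).2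

theorem place : ∃ V : ValuationSubring K, Y ∉ V ∧
    (∀ g ∈ V, ∃ c : F, V.valuation (g - algebraMap (RatFunc F) K (RatFunc.C c)) < 1) ∧
    ∀ W : ValuationSubring K, Y ∉ W → W = V := by
  obtain ⟨V, hV⟩ := existsV
  exact ⟨V, hV, residue V hV, fun W hW => uniqueV V W hV hW⟩

end Pool.Agent.X135.JC
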